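import Mathlib

set_option autoImplicit false

/-!
# Set systems of small VC dimension and the sets `γ^d`

If `Γ ∪ {∅}` has VC dimension at most `d`, and `∅ ∉ Γ`, there is an `F₂`-valued weight on the cells of
`[N]^d` for which all sets `γ^d`, `γ ∈ Γ`, have weight one (an instance of the theorem of Frankl and Pach).
-/

namespace Pool.Agent.K4H98.Which

open Finset

/-- `cube d γ` is `γ^d` -/
def cube {N : ℕ} (d : ℕ) (γ : Finset (Fin N)) : Finset (Fin d → Fin N) :=
  Fintype.piFinset (fun _ : Fin d => γ)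

lemma mem_cube {N d : ℕ} {γ : Finset (Fin N)} {a : Fin d → Fin N} :
    a ∈ cube d γ ↔ univ.image a ⊆ γ := by
  simp only [cube, Fintype.mem_piFinset, subset_iff, mem_image, mem_univ, true_and,
    forall_exists_index, forall_apply_eq_imp_iff]

lemma exists_tup {d N : ℕ} (E : Finset (Fin N)) (h1 : E.Nonempty) (h2 : E.card ≤ d) :
    ∃ t : Fin d → Fin N, univ.image t = E := by
  obtain ⟨e0, he0⟩ := h1
  let f : Fin d → Fin N := fun i => if h : (i : ℕ) < E.card then (E.equivFin.symm ⟨i, h⟩ : Fin N) else e0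
  refine ⟨f, ?_⟩
  ext x
  simp only [mem_image, mem_univ, true_and]
  constructor
  · rintro ⟨i, rfl⟩
    simp only [f]
    split_ifs with h
    · exact (E.equivFin.symm ⟨i, h⟩).2
    · exact he0
  · intro hx
    have hlt := (E.equivFin ⟨x, hx⟩).2
    refine ⟨⟨E.equivFin ⟨x, hx⟩, by omega⟩, ?_⟩
    simp only [f, dif_pos hlt]
    simp

/-- the moment identity -/
lemma moment_identity {α : Type} [DecidableEq α] (𝓕 : Finset (Finset α)) (c : Finset α → ZMod 2)
    {B E : Finset α} (hBE : B ⊆ E) :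
    ∑ E' ∈ Icc B E, ∑ F ∈ 𝓕 with E' ⊆ F, c F = ∑ F ∈ 𝓕 with E ∩ F = B, c F := by
  simp only [sum_filter]
  rw [sum_comm]
  refine sum_congr rfl fun F _ => ?_
  rw [← sum_filter]
  rw [sum_const]
  by_cases hB : B ⊆ E ∩ F
  · have h1 : (Icc B E).filter (fun E' => E' ⊆ F) = Icc B (E ∩ F) := by
      ext E'
      simp only [mem_filter, mem_Icc, subset_inter_iff]
      tauto
    rw [h1, card_Icc_finset hB]
    by_cases h2 : E ∩ F = B
    · simp [h2]
    · rw [if_neg h2]
      have h3 : B.card < (E ∩ F).card := card_lt_card (hB.ssubset_of_ne (Ne.symm h2))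
      obtain ⟨k, hk⟩ : ∃ k, (E ∩ F).card - B.card = k + 1 := ⟨(E ∩ F).card - B.card - 1, by omega⟩
      rw [hk, pow_succ, mul_comm, mul_smul]
      have : ∀ x : ZMod 2, 2 • x = 0 := by decide
      exact this _
  · have h1 : (Icc B E).filter (fun E' => E' ⊆ F) = ∅ := by
      rw [filter_eq_empty_iff]
      intro E' hE' hF
      rw [mem_Icc] at hE'
      exact hB (subset_inter hBE (hE'.1.trans hF))
    rw [h1, if_neg]
    · simp
    · intro h
      exact hB h.symm.subset

/-- a nonzero `F₂`-valued function on a set system of VC dimension at most `d` has a nonzero moment of order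
at most `d` -/
theorem exists_moment {α : Type} [DecidableEq α] (𝓕 : Finset (Finset α)) (c : Finset α → ZMod 2)
    (hc : ∃ F ∈ 𝓕, c F ≠ 0) {d : ℕ} (hd : 𝓕.vcDim ≤ d) :
    ∃ E : Finset α, E.card ≤ d ∧ ∑ F ∈ 𝓕 with E ⊆ F, c F ≠ 0 := by
  classical
  -- some moment is nonzero
  have h1 : ∃ E : Finset α, ∑ F ∈ 𝓕 with E ⊆ F, c F ≠ 0 := by
    obtain ⟨F0, hF0, hmax⟩ := exists_max_image (𝓕.filter fun F => c F ≠ 0) card
      (by obtain ⟨F, hF, hcF⟩ := hc; exact ⟨F, mem_filter.2 ⟨hF, hcF⟩⟩)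
    refine ⟨F0, ?_⟩
    rw [mem_filter] at hF0
    rw [sum_eq_single_of_mem F0 (mem_filter.2 ⟨hF0.1, Subset.rfl⟩)]
    · exact hF0.2
    · intro F hF hne
      rw [mem_filter] at hF
      by_contra h
      have h2 := hmax F (mem_filter.2 ⟨hF.1, h⟩)
      exact hne (eq_of_subset_of_card_le hF.2 h2).symm
  -- a minimal one
  obtain ⟨E, hE, hmin⟩ : ∃ E : Finset α, (∑ F ∈ 𝓕 with E ⊆ F, c F ≠ 0) ∧
      ∀ E' ⊂ E, ∑ F ∈ 𝓕 with E' ⊆ F, c F = 0 := by
    obtain ⟨E1, hE1⟩ := h1
    induction E1 using Finset.strongInduction with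
    | H E1 ih =>
      by_cases h : ∀ E' ⊂ E1, ∑ F ∈ 𝓕 with E' ⊆ F, c F = 0
      · exact ⟨E1, hE1, h⟩
      · push Not at h
        obtain ⟨E', h1, h2⟩ := h
        exact ih E' h1 h2
  refine ⟨E, ?_, hE⟩
  refine le_trans (Shatters.card_le_vcDim ?_) hd
  intro B hB
  have h2 := moment_identity 𝓕 c hB
  rw [sum_eq_single_of_mem E (mem_Icc.2 ⟨hB, le_rfl⟩)] at h2
  · rw [h2] at hE
    obtain ⟨F, hF, -⟩ := exists_ne_zero_of_sum_ne_zero hE
    rw [mem_filter] at hF
    exact ⟨F, hF⟩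
  · intro E' hE' hne
    rw [mem_Icc] at hE'
    exact hmin E' (hE'.2.ssubset_of_ne hne)

/-- the weight -/
theorem exists_weight {N d : ℕ} (Γ : Finset (Finset (Fin N))) (hΓ : ∅ ∉ Γ)
    (hd : (insert ∅ Γ).vcDim ≤ d) :
    ∃ w : (Fin d → Fin N) → ZMod 2, ∀ γ ∈ Γ, ∑ a ∈ cube d γ, w a = 1 := by
  classical
  let M : ((Fin d → Fin N) → ZMod 2) →ₗ[ZMod 2] (Γ → ZMod 2) :=
    { toFun := fun w γ => ∑ a ∈ cube d γ.1, w a
      map_add' := by
        intro x y
        funext γ
        simp [sum_add_distrib]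
      map_smul' := by
        intro r x
        funext γ
        simp [mul_sum] }
  by_cases h : (fun _ => 1 : Γ → ZMod 2) ∈ LinearMap.range M
  · obtain ⟨w, hw⟩ := h
    exact ⟨w, fun γ hγ => congrFun hw ⟨γ, hγ⟩⟩
  exfalso
  obtain ⟨f, hf1, hf2⟩ := Submodule.exists_dual_map_eq_bot_of_notMem h inferInstance
  have hf3 : ∀ w, f (M w) = 0 := by
    intro w
    have : f (M w) ∈ (LinearMap.range M).map f := ⟨M w, ⟨w, rfl⟩, rfl⟩
    rw [hf2] at this
    exact (Submodule.mem_bot (ZMod 2)).1 this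
  have hfs : ∀ v : Γ → ZMod 2, f v = ∑ γ : Γ, f (Pi.single γ 1) * v γ := by
    intro v
    conv_lhs => rw [← univ_sum_single v]
    rw [map_sum]
    refine sum_congr rfl fun γ _ => ?_
    have : (Pi.single γ (v γ) : Γ → ZMod 2) = v γ • Pi.single γ 1 := by
      rw [← Pi.single_smul]; simp
    rw [this, map_smul, smul_eq_mul, mul_comm]
  let c : Finset (Fin N) → ZMod 2 := fun F =>
    if h : F ∈ Γ then f (Pi.single (⟨F, h⟩ : Γ) 1) else 1
  have hc0 : c ∅ = 1 := by simp only [c, dif_neg hΓ]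
  have hcs : ∀ P : Finset (Fin N) → Prop, [DecidablePred P] →
      ∑ F ∈ Γ with P F, c F = f (fun γ => if P γ.1 then 1 else 0) := by
    intro P _
    rw [hfs, sum_filter, ← sum_attach]
    refine sum_congr rfl fun γ _ => ?_
    have h5 : c γ.1 = f (Pi.single γ 1) := by simp only [c, dif_pos γ.2]
    rw [h5]
    split_ifs <;> simp
  obtain ⟨E, hE1, hE2⟩ := exists_moment (insert ∅ Γ) c ⟨∅, mem_insert_self _ _, by rw [hc0]; decide⟩ hd
  rcases E.eq_empty_or_nonempty with rfl | hne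
  · apply hE2
    have h6 : (insert ∅ Γ).filter (fun F => (∅ : Finset (Fin N)) ⊆ F) = insert ∅ Γ :=
      filter_true_of_mem fun F _ => empty_subset F
    rw [h6, sum_insert hΓ, hc0]
    have h7 := hcs (fun _ => True)
    rw [filter_true] at h7
    simp only [if_true] at h7
    rw [h7]
    have : ∀ x : ZMod 2, x ≠ 0 → 1 + x = 0 := by decide
    exact this _ hf1
  · apply hE2
    obtain ⟨t, ht⟩ := exists_tup E hne hE1
    have h6 : (insert ∅ Γ).filter (fun F => E ⊆ F) = Γ.filter (fun F => E ⊆ F) := by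
      rw [filter_insert, if_neg]
      intro h
      exact hne.ne_empty (subset_empty.1 h)
    rw [h6, hcs]
    have h7 := hf3 (Pi.single t 1)
    have h8 : M (Pi.single t 1) = fun γ : Γ => if E ⊆ γ.1 then 1 else 0 := by
      funext γ
      change ∑ a ∈ cube d γ.1, (Pi.single t (1 : ZMod 2) : (Fin d → Fin N) → ZMod 2) a = _
      simp only [Pi.single_apply]
      rw [sum_ite_eq']
      simp only [mem_cube, ht]
    rw [← h8, h7]

end Pool.Agent.K4H98.Which
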