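import Mathlib
import Pool.Agent.K4H98.Which.VC

set_option autoImplicit false

/-!
# Families without pairs, from weights; odd cycles
-/

namespace Pool.Agent.K4H98.Which

open Finset

lemma sum_symmDiff {C : Type} [DecidableEq C] (w : C → ZMod 2) (A B : Finset C) :
    ∑ a ∈ symmDiff A B, w a = ∑ a ∈ A, w a + ∑ a ∈ B, w a := by
  have h1 : ∑ a ∈ symmDiff A B, w a = ∑ a ∈ A \ B, w a + ∑ a ∈ B \ A, w a := by
    rw [← sum_union disjoint_sdiff_sdiff]; rfl
  have h2 : ∑ a ∈ A, w a = ∑ a ∈ A \ B, w a + ∑ a ∈ A ∩ B, w a := by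
    rw [← sum_union (disjoint_sdiff_inter A B), sdiff_union_inter]
  have h3 : ∑ a ∈ B, w a = ∑ a ∈ B \ A, w a + ∑ a ∈ A ∩ B, w a := by
    rw [inter_comm, ← sum_union (disjoint_sdiff_inter B A), sdiff_union_inter]
  rw [h1, h2, h3]
  have : ∀ x y z : ZMod 2, x + y = x + z + (y + z) := by decide
  exact this _ _ _

lemma card_cells {N d : ℕ} : Fintype.card (Finset (Fin d → Fin N)) = 2 ^ N ^ d := by
  rw [Fintype.card_finset, Fintype.card_fun, Fintype.card_fin, Fintype.card_fin]

/-- half of all sets, from a weight -/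
theorem half_of_weight {N d : ℕ} (Γ : Finset (Finset (Fin N))) (w : (Fin d → Fin N) → ZMod 2)
    (hw : ∀ γ ∈ Γ, ∑ a ∈ cube d γ, w a = 1) {γ₀ : Finset (Fin N)} (h0 : γ₀ ∈ Γ) :
    ∃ S : Finset (Finset (Fin d → Fin N)), 2 * S.card = 2 ^ N ^ d ∧
      ∀ A, ∀ γ ∈ Γ, (A ∈ S ↔ symmDiff A (cube d γ) ∉ S) := by
  classical
  let S : Finset (Finset (Fin d → Fin N)) := univ.filter fun A => ∑ a ∈ A, w a = 0
  have hS : ∀ A, ∀ γ ∈ Γ, (A ∈ S ↔ symmDiff A (cube d γ) ∉ S) := by
    intro A γ hγ
    simp only [S, mem_filter, mem_univ, true_and, sum_symmDiff, hw γ hγ]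
    have : ∀ x : ZMod 2, x = 0 ↔ ¬ x + 1 = 0 := by decide
    exact this _
  refine ⟨S, ?_, hS⟩
  have h1 : Sᶜ.card = S.card := by
    refine card_bij' (fun A _ => symmDiff A (cube d γ₀)) (fun A _ => symmDiff A (cube d γ₀)) ?_ ?_ ?_ ?_
    · intro A hA
      rw [mem_compl] at hA
      by_contra h
      exact hA ((hS A γ₀ h0).2 h)
    · intro A hA
      rw [mem_compl]
      exact (hS A γ₀ h0).1 hA
    · intro A _
      simp [symmDiff_symmDiff_cancel_right]
    · intro A _
      simp [symmDiff_symmDiff_cancel_right]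
  have h2 := card_compl_add_card S
  rw [h1, card_cells] at h2
  omega

/-- set systems of VC dimension at most `d` are avoided by half of all sets -/
theorem half_of_vcDim {N d : ℕ} (hN : 1 ≤ N) (Γ : Finset (Finset (Fin N))) (hΓ : ∀ γ ∈ Γ, γ.Nonempty)
    (hd : (insert ∅ Γ).vcDim ≤ d) :
    ∃ S : Finset (Finset (Fin d → Fin N)), 2 * S.card = 2 ^ N ^ d ∧
      ∀ A, ∀ γ ∈ Γ, (A ∈ S ↔ symmDiff A (cube d γ) ∉ S) := by
  classical
  have h0 : ∅ ∉ Γ := fun h => by simpa using hΓ ∅ h
  rcases Γ.eq_empty_or_nonempty with rfl | ⟨γ₀, hγ₀⟩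
  · obtain ⟨S, hS, -⟩ := half_of_weight (N := N) (d := d) {univ}
      (Pi.single (fun _ => ⟨0, hN⟩) 1) (by
        intro γ hγ
        rw [mem_singleton] at hγ
        subst hγ
        simp only [Pi.single_apply]
        rw [sum_ite_eq', if_pos]
        simp [mem_cube]) (mem_singleton_self _)
    exact ⟨S, hS, by simp⟩
  · obtain ⟨w, hw⟩ := exists_weight Γ h0 hd
    exact half_of_weight Γ w hw hγ₀

/-- a residue class of a weight -/
theorem class_of_weight {N d m : ℕ} [NeZero m] (w : (Fin d → Fin N) → ZMod m) :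
    ∃ S : Finset (Finset (Fin d → Fin N)), 2 ^ N ^ d ≤ m * S.card ∧
      ∀ A ∈ S, ∀ γ, Disjoint A (cube d γ) → A ∪ cube d γ ∈ S → ∑ a ∈ cube d γ, w a = 0 := by
  classical
  obtain ⟨x, hx⟩ : ∃ x : ZMod m, 2 ^ N ^ d ≤
      m * (univ.filter fun A : Finset (Fin d → Fin N) => ∑ a ∈ A, w a = x).card := by
    by_contra hcon
    push Not at hcon
    have h1 := card_eq_sum_card_fiberwise (s := (univ : Finset (Finset (Fin d → Fin N))))
      (t := (univ : Finset (ZMod m))) (f := fun A => ∑ a ∈ A, w a) (fun _ _ => mem_univ _)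
    rw [card_univ, card_cells] at h1
    have h2 : ∑ x : ZMod m, m * (univ.filter fun A : Finset (Fin d → Fin N) => ∑ a ∈ A, w a = x).card
        < ∑ _x : ZMod m, 2 ^ N ^ d := sum_lt_sum_of_nonempty ⟨0, mem_univ _⟩ fun x _ => hcon x
    rw [← mul_sum, ← h1, sum_const, card_univ, ZMod.card, smul_eq_mul] at h2
    exact lt_irrefl _ h2
  refine ⟨_, hx, ?_⟩
  intro A hA γ hdis hAγ
  rw [mem_filter] at hA hAγ
  have h3 := hAγ.2
  rw [sum_union hdis, hA.2] at h3
  simpa using h3

/-- the number of `i ∈ γ` with `i + 1 ∉ γ`: the number of the maximal intervals of `γ` -/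
def runs {N : ℕ} (γ : Finset (Fin N)) : ℕ :=
  (γ.filter fun i : Fin N => ∀ j ∈ γ, (j : ℕ) ≠ (i : ℕ) + 1).card

/-- the cells `(i, i, ..., i)` -/
def diag (N d : ℕ) : Finset (Fin d → Fin N) := univ.image fun i _ => i

/-- the cells `(i, i + 1, ..., i + 1)` -/
def offdiag (N d : ℕ) : Finset (Fin d → Fin N) :=
  univ.filter fun a => ∃ i j : Fin N, (j : ℕ) = (i : ℕ) + 1 ∧ ∀ k : Fin d, a k = if (k : ℕ) = 0 then i else j

lemma sum_runs {N d m : ℕ} (hd : 2 ≤ d) (γ : Finset (Fin N)) :
    ∑ a ∈ cube d γ, ((if a ∈ diag N d then (1 : ZMod m) else 0) - (if a ∈ offdiag N d then 1 else 0))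
      = (runs γ : ZMod m) := by
  classical
  rw [sum_sub_distrib, ← sum_filter, ← sum_filter, sum_const, sum_const, nsmul_one, nsmul_one]
  have h1 : ((cube d γ).filter fun a => a ∈ diag N d).card = γ.card := by
    symm
    refine card_bij (fun i _ => fun _ => i) ?_ ?_ ?_
    · intro i hi
      rw [mem_filter]
      refine ⟨?_, mem_image.2 ⟨i, mem_univ _, rfl⟩⟩
      simpa only [cube, Fintype.mem_piFinset] using fun _ => hi
    · intro i _ j _ h
      exact congrFun h ⟨0, by omega⟩
    · intro a ha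
      rw [mem_filter] at ha
      obtain ⟨i, -, hi⟩ := mem_image.1 ha.2
      refine ⟨i, ?_, hi⟩
      have := Fintype.mem_piFinset.1 ha.1 ⟨0, by omega⟩
      rw [← hi] at this
      exact this
  have h2 : ((cube d γ).filter fun a => a ∈ offdiag N d).card
      = (γ.filter fun i : Fin N => ¬ ∀ j ∈ γ, (j : ℕ) ≠ (i : ℕ) + 1).card := by
    refine card_bij (fun a _ => a ⟨0, by omega⟩) ?_ ?_ ?_
    · intro a ha
      simp only [offdiag, mem_filter, mem_univ, true_and, cube, Fintype.mem_piFinset] at ha ⊢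
      obtain ⟨h1, i, j, hij, h2⟩ := ha
      refine ⟨h1 _, ?_⟩
      push Not
      refine ⟨a ⟨1, by omega⟩, h1 _, ?_⟩
      rw [h2, h2]
      simpa using hij
    · intro a ha b hb hab
      simp only [offdiag, mem_filter, mem_univ, true_and] at ha hb
      obtain ⟨-, i, j, hij, h2⟩ := ha
      obtain ⟨-, i', j', hij', h2'⟩ := hb
      have h3 : i = i' := by
        rw [h2, h2'] at hab
        simpa using hab
      subst h3
      have h4 : j = j' := Fin.ext (by omega)
      subst h4
      funext k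
      rw [h2, h2']
    · intro i hi
      rw [mem_filter] at hi
      push Not at hi
      obtain ⟨hi, j, hj, hij⟩ := hi
      refine ⟨fun k => if (k : ℕ) = 0 then i else j, ?_, by simp⟩
      simp only [offdiag, mem_filter, mem_univ, true_and, cube, Fintype.mem_piFinset]
      refine ⟨fun k => ?_, i, j, hij, fun k => rfl⟩
      split_ifs
      · exact hi
      · exact hj
  have h3 := card_filter_add_card_filter_not (s := γ) (fun i : Fin N => ∀ j ∈ γ, (j : ℕ) ≠ (i : ℕ) + 1)
  rw [h1, h2, runs, ← h3]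
  push_cast
  ring

lemma runs_pos {N : ℕ} {γ : Finset (Fin N)} (h : γ.Nonempty) : 1 ≤ runs γ := by
  refine card_pos.2 ⟨γ.max' h, ?_⟩
  rw [mem_filter]
  refine ⟨max'_mem _ _, fun j hj hj' => ?_⟩
  have := le_max' γ j hj
  rw [Fin.le_def] at this
  omega

/-- unions of at most `k` intervals do not suffice if `d ≥ 2` -/
theorem intervals {N d k : ℕ} (hd : 2 ≤ d) :
    ∃ S : Finset (Finset (Fin d → Fin N)), 2 ^ N ^ d ≤ (k + 1) * S.card ∧
      ∀ A ∈ S, ∀ γ : Finset (Fin N), γ.Nonempty → runs γ ≤ k → Disjoint A (cube d γ) →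
        A ∪ cube d γ ∉ S := by
  obtain ⟨S, h1, h2⟩ := class_of_weight (m := k + 1) fun a : Fin d → Fin N =>
    ((if a ∈ diag N d then (1 : ZMod (k + 1)) else 0) - (if a ∈ offdiag N d then 1 else 0))
  refine ⟨S, h1, fun A hA γ hγ hk hdis hAγ => ?_⟩
  have h3 := h2 A hA γ hdis hAγ
  rw [sum_runs hd, ZMod.natCast_eq_zero_iff] at h3
  have h4 := Nat.le_of_dvd (runs_pos hγ) h3
  omega

/-- the number of sets between -/
lemma even_count {α : Type} [DecidableEq α] {E T : Finset α} (hE : E.Nonempty)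
    (hET : E.card < T.card) : Even ((T.powerset.erase ∅).filter fun γ => E ⊆ γ).card := by
  have h1 : ((T.powerset.erase ∅).filter fun γ => E ⊆ γ) = Icc E T := by
    ext γ
    simp only [mem_filter, mem_erase, mem_powerset, mem_Icc]
    constructor
    · rintro ⟨⟨-, h1⟩, h2⟩
      exact ⟨h2, h1⟩
    · rintro ⟨h1, h2⟩
      refine ⟨⟨?_, h2⟩, h1⟩
      rintro rfl
      exact hE.ne_empty (subset_empty.1 h1)
  rw [h1]
  by_cases h : E ⊆ T
  · rw [card_Icc_finset h]
    obtain ⟨k, hk⟩ : ∃ k, T.card - E.card = k + 1 := ⟨T.card - E.card - 1, by omega⟩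
    rw [hk, pow_succ]
    exact (even_two).mul_left _
  · rw [Icc_eq_empty h]
    simp

/-- all nonempty subsets of a set of size `d + 1` -/
theorem odd_cycle {N d : ℕ} (hd : 1 ≤ d) (T : Finset (Fin N)) (hT : T.card = d + 1)
    (S : Finset (Finset (Fin d → Fin N)))
    (hS : (2 ^ d - 1) * 2 ^ N ^ d < (2 ^ (d + 1) - 1) * S.card) :
    ∃ A ∈ S, ∃ γ : Finset (Fin N), γ.Nonempty ∧ γ ⊆ T ∧ symmDiff A (cube d γ) ∈ S := by
  classical
  by_contra hcon
  push Not at hcon
  set Γ := T.powerset.erase ∅ with hΓ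
  set n := Γ.card with hn
  have hn1 : n = 2 ^ (d + 1) - 1 := by
    rw [hn, hΓ, card_erase_of_mem (empty_mem_powerset T), card_powerset, hT]
  let e := Γ.equivFin
  -- partial sums
  let P : ℕ → Finset (Fin d → Fin N) := fun k => univ.filter fun a =>
    Odd ((univ.filter fun γ : Γ => ((e γ : ℕ) < k) ∧ a ∈ cube d γ.1).card)
  have hP0 : P 0 = ∅ := by
    simp only [P, not_lt_zero, false_and, filter_false, card_empty]
    rw [filter_eq_empty_iff]
    intro a _
    decide
  have hPn : P n = ∅ := by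
    simp only [P]
    rw [filter_eq_empty_iff]
    intro a _
    rw [Nat.not_odd_iff_even]
    have h1 : (univ.filter fun γ : Γ => ((e γ : ℕ) < n) ∧ a ∈ cube d γ.1).card
        = (Γ.filter fun γ => univ.image a ⊆ γ).card := by
      refine card_bij (fun γ _ => γ.1) ?_ ?_ ?_
      · intro γ hγ
        simp only [mem_filter, mem_univ, true_and, mem_cube] at hγ ⊢
        exact ⟨γ.2, hγ.2⟩
      · intro γ _ γ' _ h
        exact Subtype.ext h
      · intro γ hγ
        simp only [mem_filter, mem_univ, true_and, mem_cube] at hγ ⊢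
        exact ⟨⟨γ, hγ.1⟩, ⟨(e _).2, hγ.2⟩, rfl⟩
    rw [h1]
    have : Nonempty (Fin d) := ⟨⟨0, hd⟩⟩
    refine even_count (univ_nonempty.image a) ?_
    have := card_image_le (s := univ) (f := a)
    rw [card_univ, Fintype.card_fin] at this
    omega
  have hPs : ∀ k (hk : k < n), P (k + 1) = symmDiff (P k) (cube d (e.symm ⟨k, hk⟩).1) := by
    intro k hk
    ext a
    have h1 : (univ.filter fun γ : Γ => ((e γ : ℕ) < k + 1) ∧ a ∈ cube d γ.1)
        = (univ.filter fun γ : Γ => ((e γ : ℕ) < k) ∧ a ∈ cube d γ.1) ∪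
          (if a ∈ cube d (e.symm ⟨k, hk⟩).1 then {e.symm ⟨k, hk⟩} else ∅) := by
      ext γ
      simp only [mem_filter, mem_univ, true_and, mem_union]
      have h5 : (e γ : ℕ) = k ↔ γ = e.symm ⟨k, hk⟩ := by
        rw [Equiv.eq_symm_apply, Fin.ext_iff]
      constructor
      · rintro ⟨h2, h3⟩
        rcases Nat.lt_succ_iff_lt_or_eq.1 h2 with h | h
        · exact Or.inl ⟨h, h3⟩
        · right
          rw [h5] at h
          subst h
          rw [if_pos h3]
          exact mem_singleton_self _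
      · rintro (⟨h2, h3⟩ | h)
        · exact ⟨by omega, h3⟩
        · split_ifs at h with h6
          · rw [mem_singleton] at h
            subst h
            refine ⟨?_, h6⟩
            simp
          · simp at h
    have h2 : Disjoint (univ.filter fun γ : Γ => ((e γ : ℕ) < k) ∧ a ∈ cube d γ.1)
        (if a ∈ cube d (e.symm ⟨k, hk⟩).1 then {e.symm ⟨k, hk⟩} else ∅) := by
      split_ifs
      · rw [disjoint_singleton_right, mem_filter]
        rintro ⟨-, h, -⟩
        simp at h
      · exact disjoint_empty_right _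
    rw [mem_symmDiff]
    simp only [P, mem_filter, mem_univ, true_and]
    rw [h1, card_union_of_disjoint h2]
    split_ifs with h3
    · rw [card_singleton, Nat.odd_add_one]
      tauto
    · rw [card_empty, add_zero]
      tauto
  -- no two consecutive translates are in `S`
  have hno : ∀ A : Finset (Fin d → Fin N), ∀ k < n, symmDiff A (P k) ∈ S →
      symmDiff A (P ((k + 1) % n)) ∉ S := by
    intro A k hk h1 h2
    have h3 : P ((k + 1) % n) = P (k + 1) := by
      rcases Nat.lt_or_ge (k + 1) n with h | h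
      · rw [Nat.mod_eq_of_lt h]
      · have : k + 1 = n := by omega
        rw [this, Nat.mod_self, hP0, hPn]
    rw [h3, hPs k hk, ← symmDiff_assoc] at h2
    have h4 : (e.symm ⟨k, hk⟩).1 ∈ T.powerset.erase ∅ := (e.symm ⟨k, hk⟩).2
    rw [mem_erase, mem_powerset] at h4
    exact hcon _ h1 _ (nonempty_iff_ne_empty.2 h4.1) h4.2 h2
  have hn0 : 0 < n := by
    rw [hn1]
    have : 2 ≤ 2 ^ (d + 1) := by
      calc 2 = 2 ^ 1 := rfl
        _ ≤ 2 ^ (d + 1) := Nat.pow_le_pow_right (by norm_num) (by omega)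
    omega
  have hA : ∀ A : Finset (Fin d → Fin N),
      2 * ((range n).filter fun k => symmDiff A (P k) ∈ S).card ≤ n := by
    intro A
    set K := (range n).filter fun k => symmDiff A (P k) ∈ S with hK
    have h1 : (K.image fun k => (k + 1) % n).card = K.card := by
      refine card_image_of_injOn ?_
      intro x hx y hy hxy
      simp only [hK, coe_filter, mem_range, Set.mem_ofPred_eq] at hx hy
      simp only at hxy
      rcases Nat.lt_or_ge (x + 1) n with h | h <;> rcases Nat.lt_or_ge (y + 1) n with h' | h'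
      · rw [Nat.mod_eq_of_lt h, Nat.mod_eq_of_lt h'] at hxy
        omega
      · have : y + 1 = n := by omega
        rw [Nat.mod_eq_of_lt h, this, Nat.mod_self] at hxy
        omega
      · have : x + 1 = n := by omega
        rw [Nat.mod_eq_of_lt h', this, Nat.mod_self] at hxy
        omega
      · omega
    have h2 : Disjoint K (K.image fun k => (k + 1) % n) := by
      rw [disjoint_left]
      intro x hx hx'
      obtain ⟨y, hy, rfl⟩ := mem_image.1 hx'
      rw [hK, mem_filter, mem_range] at hx hy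
      exact hno A y hy.1 hy.2 hx.2
    have h3 : (K ∪ K.image fun k => (k + 1) % n) ⊆ range n := by
      intro x hx
      rw [mem_union] at hx
      rcases hx with hx | hx
      · exact (mem_filter.1 hx).1
      · obtain ⟨y, -, rfl⟩ := mem_image.1 hx
        exact mem_range.2 (Nat.mod_lt _ hn0)
    have h4 := card_le_card h3
    rw [card_union_of_disjoint h2, h1, card_range] at h4
    omega
  have hsum : ∑ A : Finset (Fin d → Fin N), ((range n).filter fun k => symmDiff A (P k) ∈ S).card
      = n * S.card := by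
    simp only [card_filter]
    rw [sum_comm]
    rw [← card_range n, ← smul_eq_mul, ← sum_const, card_range]
    refine sum_congr rfl fun k _ => ?_
    rw [← card_filter]
    refine card_bij (fun A _ => symmDiff A (P k)) ?_ ?_ ?_
    · intro A hA
      exact (mem_filter.1 hA).2
    · intro A _ B _ h
      exact symmDiff_left_injective (P k) h
    · intro B hB
      refine ⟨symmDiff B (P k), ?_, ?_⟩
      · rw [mem_filter]
        refine ⟨mem_univ _, ?_⟩
        rw [symmDiff_symmDiff_cancel_right]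
        exact hB
      · exact symmDiff_symmDiff_cancel_right _ _
  have hodd : ∀ A : Finset (Fin d → Fin N),
      ((range n).filter fun k => symmDiff A (P k) ∈ S).card ≤ 2 ^ d - 1 := by
    intro A
    have h1 := hA A
    have h2 : 2 ^ (d + 1) = 2 * 2 ^ d := by ring
    have h3 : 1 ≤ 2 ^ d := Nat.one_le_two_pow
    omega
  have hle : n * S.card ≤ (2 ^ d - 1) * 2 ^ N ^ d := by
    rw [← hsum]
    refine (sum_le_sum fun A _ => hodd A).trans ?_
    rw [sum_const, card_univ, card_cells, smul_eq_mul, mul_comm]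
  rw [hn1] at hle
  omega

end Pool.Agent.K4H98.Which
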