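import Mathlib
import Pool.Agent.H720R3.Blocks
import Pool.Agent.K4H98.Which.VC

set_option autoImplicit false

/-!
# Planting patterns in blocks of consecutive elements

Given `m` patterns in `[n]^d` and a family `S` of density above `q/m`, there is a block of `n` consecutive
elements and a background such that more than `q` of the patterns, planted in the block, give members of `S`.
-/

namespace Pool.Agent.K4H98.Which

open Finset Pool.Agent.H720R3

lemma scheme {d n : ℕ} (hd : 1 ≤ d) (m q : ℕ) (hm : 1 ≤ m) (w : ℕ → Finset (Fin d → Fin n)) (δ : ℝ)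
    (hδ : (q : ℝ) / m < δ) :
    ∃ M : ℕ, ∀ N : ℕ, ∀ hN : M * n ≤ N, ∀ S : Finset (Finset (Fin d → Fin N)),
      δ * (2 : ℝ) ^ (N ^ d) ≤ S.card → ∃ j : Fin M, ∃ R : Finset (Fin d → Fin N),
        Disjoint R (C d hN j) ∧ q < ((range m).filter fun i => R ∪ tr d hN j (w i) ∈ S).card := by
  classical
  have hmR : (0 : ℝ) < m := by exact_mod_cast hm
  rw [div_lt_iff₀ hmR] at hδ
  set c : ℕ := n ^ d with hc
  -- choose M
  set κ : ℝ := δ * m - q with hκ
  have hκ0 : 0 < κ := by rw [hκ]; linarith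
  obtain ⟨M, hM⟩ := exists_nat_gt ((((m : ℝ) / κ) ^ 2) * 2 ^ c)
  refine ⟨M, fun N hN S hS => ?_⟩
  by_contra hgood
  push Not at hgood
  set μ : ℝ := (M : ℝ) / 2 ^ c with hμ
  have hμ1 : ((m : ℝ) / κ) ^ 2 < μ := by
    rw [hμ, lt_div_iff₀ (by positivity)]; exact hM
  have hμ0 : 0 < μ := lt_of_le_of_lt (sq_nonneg _) hμ1
  have hsq : (m : ℝ) / κ < Real.sqrt μ := by
    rw [Real.lt_sqrt (by positivity)]; exact hμ1
  set W : ℝ := 2 ^ Fintype.card (Fin d → Fin N) with hW
  have hWe : W = (2 : ℝ) ^ (N ^ d) := by rw [hW]; simp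
  have hW0 : 0 < W := by positivity
  -- lower bound
  have hlow : ∀ i : ℕ, μ * S.card - Real.sqrt μ * W ≤
      ∑ A ∈ S, cnt (C d hN) (fun j => tr d hN j (w i)) A := fun i =>
    conc (C d hN) (fun j => tr d hN j (w i)) (fun j => tr_sub hN j _)
      (fun j => by rw [card_C]) (C_disj hd hN) S
  -- upper bound
  have hup : ∑ i ∈ range m, ∑ A ∈ S, cnt (C d hN) (fun j => tr d hN j (w i)) A
      ≤ q * μ * W := by
    have e1 : ∀ i : ℕ, ∑ A ∈ S, cnt (C d hN) (fun j => tr d hN j (w i)) A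
        = ∑ j : Fin M, ∑ R ∈ univ.filter (fun R : Finset (Fin d → Fin N) => R ∩ C d hN j = ∅),
            if R ∪ tr d hN j (w i) ∈ S then (1 : ℝ) else 0 := by
      intro i
      unfold cnt
      rw [sum_comm]
      exact sum_congr rfl fun j _ => fibre S (C d hN j) _ (tr_sub hN j _)
    rw [sum_congr rfl fun i _ => e1 i, sum_comm]
    have e2 : ∀ j : Fin M, ∑ i ∈ range m,
        ∑ R ∈ univ.filter (fun R : Finset (Fin d → Fin N) => R ∩ C d hN j = ∅),
            (if R ∪ tr d hN j (w i) ∈ S then (1 : ℝ) else 0) ≤ q * (W / 2 ^ c) := by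
      intro j
      rw [sum_comm]
      have e3 : ∀ R ∈ univ.filter (fun R : Finset (Fin d → Fin N) => R ∩ C d hN j = ∅),
          ∑ i ∈ range m, (if R ∪ tr d hN j (w i) ∈ S then (1 : ℝ) else 0) ≤ q := by
        intro R hR
        rw [mem_filter] at hR
        have hRd : Disjoint R (C d hN j) := disjoint_iff_inter_eq_empty.2 hR.2
        rw [sum_boole]
        exact_mod_cast hgood j R hRd
      calc _ ≤ ∑ _R ∈ univ.filter (fun R : Finset (Fin d → Fin N) => R ∩ C d hN j = ∅), (q : ℝ) :=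
            sum_le_sum e3
        _ = _ := by
          rw [sum_const, nsmul_eq_mul, mul_comm]
          congr 1
          have := card_trace (C d hN j) ∅ (empty_subset _)
          rw [card_C] at this
          rw [eq_div_iff (by positivity)]
          exact this
    calc _ ≤ ∑ _j : Fin M, (q : ℝ) * (W / 2 ^ c) := sum_le_sum fun j _ => e2 j
      _ = q * μ * W := by
        simp only [sum_const, card_univ, Fintype.card_fin, nsmul_eq_mul, hμ]
        ring
  have hlow' : (m : ℝ) * (μ * S.card - Real.sqrt μ * W) ≤ q * μ * W := by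
    refine le_trans ?_ hup
    calc (m : ℝ) * (μ * S.card - Real.sqrt μ * W)
        = ∑ _i ∈ range m, (μ * S.card - Real.sqrt μ * W) := by
          simp only [sum_const, card_range, nsmul_eq_mul]
      _ ≤ _ := sum_le_sum fun i _ => hlow i
  rw [← hWe] at hS
  have h7 : μ * (δ * W) ≤ μ * S.card := mul_le_mul_of_nonneg_left hS hμ0.le
  have h8 : (m : ℝ) * (μ * (δ * W) - Real.sqrt μ * W) ≤ q * μ * W := by
    refine le_trans ?_ hlow'
    refine mul_le_mul_of_nonneg_left ?_ (by positivity)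
    linarith
  have h9 : (μ * κ) ≤ (m : ℝ) * Real.sqrt μ := by
    have : (μ * κ) * W ≤ (m : ℝ) * Real.sqrt μ * W := by
      rw [hκ]; linarith
    exact le_of_mul_le_mul_right this hW0
  have hs : Real.sqrt μ * Real.sqrt μ = μ := Real.mul_self_sqrt hμ0.le
  have hs0 : 0 < Real.sqrt μ := Real.sqrt_pos.2 hμ0
  have h10 : Real.sqrt μ * κ ≤ m := by
    have : Real.sqrt μ * κ * Real.sqrt μ ≤ (m : ℝ) * Real.sqrt μ := by
      calc Real.sqrt μ * κ * Real.sqrt μ = (Real.sqrt μ * Real.sqrt μ) * κ := by ring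
        _ = μ * κ := by rw [hs]
        _ ≤ _ := h9
    exact le_of_mul_le_mul_right this hs0
  rw [div_lt_iff₀ hκ0] at hsq
  linarith

/-- `γ` consists of consecutive elements -/
def IsInterval {N : ℕ} (γ : Finset (Fin N)) : Prop :=
  ∀ i ∈ γ, ∀ j ∈ γ, ∀ k : Fin N, i ≤ k → k ≤ j → k ∈ γ

/-- adjacency with a bound for the size -/
lemma adj_tr' {d n M N : ℕ} (h : M * n ≤ N) (j : Fin M) (R : Finset (Fin d → Fin N))
    (hR : Disjoint R (C d h j)) {X : Finset (Fin d → Fin n)} {γ : Finset (Fin n)}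
    (hdis : Disjoint X (pw d γ)) :
    Disjoint (R ∪ tr d h j X) (cube d (γ.image (e h j))) ∧
      R ∪ tr d h j (X ∪ pw d γ) = (R ∪ tr d h j X) ∪ cube d (γ.image (e h j)) := by
  have h1 : cube d (γ.image (e h j)) = tr d h j (pw d γ) := (tr_pw h j γ).symm
  rw [h1]
  refine ⟨?_, ?_⟩
  · rw [disjoint_union_left]
    refine ⟨Finset.disjoint_of_subset_right (tr_sub h j _) hR, ?_⟩
    exact (disjoint_image (tr_inj h j)).2 hdis
  · rw [tr_union, union_assoc]

/-- sets of at most `d + 1` elements, in blocks of `d + 1` consecutive elements -/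
theorem small_sets (d : ℕ) (hd : 1 ≤ d) (δ : ℝ) (hδ : ((2 : ℝ) ^ d - 1) / (2 ^ (d + 1) - 1) < δ) :
    ∃ N₀ : ℕ, ∀ N : ℕ, N₀ ≤ N → ∀ S : Finset (Finset (Fin d → Fin N)),
      δ * (2 : ℝ) ^ (N ^ d) ≤ S.card → ∃ A ∈ S, ∃ γ : Finset (Fin N), γ.Nonempty ∧ γ.card ≤ d + 1 ∧
        (∀ i ∈ γ, ∀ j ∈ γ, (j : ℕ) ≤ i + d) ∧ Disjoint A (cube d γ) ∧ A ∪ cube d γ ∈ S := by
  classical
  set q : ℕ := 2 ^ d - 1 with hq
  have h2d : 1 ≤ 2 ^ d := Nat.one_le_two_pow
  have hqR : (q : ℝ) = 2 ^ d - 1 := by rw [hq, Nat.cast_sub h2d]; push_cast; ring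
  have hm : 2 ^ (d + 1) - 1 = 2 * q + 1 := by rw [pow_succ]; omega
  have hmR : (2 : ℝ) ^ (d + 1) - 1 = ((2 * q + 1 : ℕ) : ℝ) := by push_cast; rw [hqR, pow_succ]; ring
  rw [← hqR, hmR] at hδ
  obtain ⟨w, hw0, hwm, hw⟩ := (closed_walk hd).fn
  rw [hm] at hwm hw
  obtain ⟨M, hM⟩ := scheme hd (2 * q + 1) q (by omega) w δ hδ
  refine ⟨M * (d + 1), fun N hN S hS => ?_⟩
  obtain ⟨j, R, hR, hlt⟩ := hM N hN S hS
  by_contra hcon
  push Not at hcon
  have key : ∀ X Y : Finset (Fin d → Fin (d + 1)), Up d X Y → R ∪ tr d hN j X ∈ S →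
      R ∪ tr d hN j Y ∉ S := by
    rintro X Y ⟨γ, hγ, hdis, rfl⟩ hX hY
    obtain ⟨h1, h2⟩ := adj_tr' hN j R hR hdis
    rw [h2] at hY
    refine hcon _ hX (γ.image (e hN j)) (hγ.image _) ?_ ?_ h1 hY
    · refine card_image_le.trans ?_
      have := card_le_univ γ
      rwa [Fintype.card_fin] at this
    · intro a ha b hb
      obtain ⟨a', -, rfl⟩ := mem_image.1 ha
      obtain ⟨b', -, rfl⟩ := mem_image.1 hb
      simp only [e]
      have := b'.2
      omega
  have h3 := odd_count q (fun i => if R ∪ tr d hN j (w i) ∈ S then (1 : ℝ) else 0) (by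
      intro i
      by_cases h : R ∪ tr d hN j (w i) ∈ S
      · right; simp [h]
      · left; simp [h]) (by
      intro i hi
      have hno : ¬ (R ∪ tr d hN j (w i) ∈ S ∧ R ∪ tr d hN j (w (i + 1)) ∈ S) := by
        rintro ⟨h1, h2⟩
        rcases hw i hi with h | h
        · exact key _ _ h h1 h2
        · exact key _ _ h h2 h1
      by_cases h1 : R ∪ tr d hN j (w i) ∈ S <;> by_cases h2 : R ∪ tr d hN j (w (i + 1)) ∈ S
      · exact absurd ⟨h1, h2⟩ hno
      · simp [h1, h2]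
      · simp [h1, h2]
      · simp [h1, h2]) (by simp only [hwm, hw0])
  rw [sum_boole] at h3
  have h4 : ((range (2 * q + 1)).filter fun i => R ∪ tr d hN j (w i) ∈ S).card ≤ q := by
    exact_mod_cast h3
  omega

/-- `d = 1`: intervals whose lengths form a set of recurrence suffice -/
theorem intervals_one (L : Set ℕ)
    (hL : ∀ ε : ℝ, 0 < ε → ∃ n : ℕ, 1 ≤ n ∧ ∀ X : Finset ℕ, X ⊆ range n → ε * n ≤ X.card →
      ∃ x ∈ X, ∃ l ∈ L, 1 ≤ l ∧ x + l ∈ X) (δ : ℝ) (hδ : 0 < δ) :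
    ∃ N₀ : ℕ, ∀ N : ℕ, N₀ ≤ N → ∀ S : Finset (Finset (Fin 1 → Fin N)),
      δ * (2 : ℝ) ^ (N ^ 1) ≤ S.card → ∃ A ∈ S, ∃ γ : Finset (Fin N), γ.Nonempty ∧ γ.card ∈ L ∧
        IsInterval γ ∧ Disjoint A (cube 1 γ) ∧ A ∪ cube 1 γ ∈ S := by
  classical
  obtain ⟨n, hn, hX⟩ := hL (δ / 2) (by linarith)
  have hnR : (0 : ℝ) < n := by exact_mod_cast hn
  -- the patterns: initial segments of the block
  let iv : ℕ → ℕ → Finset (Fin n) := fun a b => univ.filter fun i : Fin n => a ≤ (i : ℕ) ∧ (i : ℕ) < b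
  let w : ℕ → Finset (Fin 1 → Fin n) := fun i => pw 1 (iv 0 i)
  set q : ℕ := ⌊δ / 2 * n⌋₊ with hq
  have hqle : (q : ℝ) ≤ δ / 2 * n := Nat.floor_le (by positivity)
  obtain ⟨M, hM⟩ := scheme (le_refl 1) n q hn w δ (by
    rw [div_lt_iff₀ hnR]
    nlinarith)
  refine ⟨M * n, fun N hN S hS => ?_⟩
  obtain ⟨j, R, hR, hlt⟩ := hM N hN S hS
  obtain ⟨x, hx, l, hl, hl1, hxl⟩ := hX ((range n).filter fun i => R ∪ tr 1 hN j (w i) ∈ S)
    (filter_subset _ _) (by
      have h1 : δ / 2 * n < (q : ℝ) + 1 := Nat.lt_floor_add_one _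
      have h2 : ((q + 1 : ℕ) : ℝ) ≤
          (((range n).filter fun i => R ∪ tr 1 hN j (w i) ∈ S).card : ℝ) := by exact_mod_cast hlt
      push_cast at h2
      linarith)
  rw [mem_filter, mem_range] at hx hxl
  have hdis : Disjoint (w x) (pw 1 (iv x (x + l))) := by
    rw [disjoint_left]
    intro y hy hy'
    simp only [w, mem_pw, iv, mem_filter, mem_univ, true_and] at hy hy'
    have h1 := hy 0
    have h2 := hy' 0
    omega
  have hun : w (x + l) = w x ∪ pw 1 (iv x (x + l)) := by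
    ext y
    simp only [w, mem_pw, iv, mem_filter, mem_univ, true_and, mem_union, Fin.forall_fin_one]
    omega
  obtain ⟨h1, h2⟩ := adj_tr' hN j R hR hdis
  rw [hun, h2] at hxl
  have hcard : ((iv x (x + l)).image (e hN j)).card = l := by
    rw [card_image_of_injective _ fun a b hab => (e_inj hN hab).2]
    have h3 : (iv x (x + l)).card = (Ico x (x + l)).card := by
      refine card_bij (fun i _ => (i : ℕ)) ?_ ?_ ?_
      · intro i hi
        simp only [iv, mem_filter, mem_univ, true_and] at hi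
        exact mem_Ico.2 hi
      · intro i _ k _ h
        exact Fin.ext h
      · intro k hk
        rw [mem_Ico] at hk
        exact ⟨⟨k, by omega⟩, by simp only [iv, mem_filter, mem_univ, true_and]; exact hk, rfl⟩
    rw [h3, Nat.card_Ico]
    omega
  refine ⟨_, hx.2, _, ?_, by rw [hcard]; exact hl, ?_, h1, hxl.2⟩
  · rw [← card_pos, hcard]
    omega
  · intro a ha b hb k hak hkb
    obtain ⟨a', ha', rfl⟩ := mem_image.1 ha
    obtain ⟨b', hb', rfl⟩ := mem_image.1 hb
    simp only [iv, mem_filter, mem_univ, true_and] at ha' hb'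
    rw [Fin.le_def] at hak hkb
    simp only [e] at hak hkb
    have ha2 := a'.2
    have hb2 := b'.2
    refine mem_image.2 ⟨⟨(k : ℕ) - j * n, by omega⟩, ?_, ?_⟩
    · simp only [iv, mem_filter, mem_univ, true_and]
      omega
    · apply Fin.ext
      simp only [e]
      omega

end Pool.Agent.K4H98.Which
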