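import Mathlib
import Pool.Agent.K4H98.Which.VC

set_option autoImplicit false

/-!
# Sizes of `γ`: recurrence along `(ℓ, ℓ², ..., ℓ^d)` is necessary
-/

namespace Pool.Agent.K4H98.Which

open Finset Filter Topology

/-- the number of the elements `x` of `A` with `x_j = x_{j+1} = ... = x_{d-1}` -/
def stat {N d : ℕ} (A : Finset (Fin d → Fin N)) (j : Fin d) : ℤ :=
  ((A.filter fun x => ∀ i, j ≤ i → x i = x j).card : ℤ)

lemma stat_union {N d : ℕ} {A C : Finset (Fin d → Fin N)} (h : Disjoint A C) (j : Fin d) :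
    stat (A ∪ C) j = stat A j + stat C j := by
  simp only [stat, filter_union]
  rw [card_union_of_disjoint (disjoint_filter_filter h)]
  push_cast
  ring

lemma stat_cube {N d : ℕ} (γ : Finset (Fin N)) (j : Fin d) :
    stat (cube d γ) j = (γ.card : ℤ) ^ ((j : ℕ) + 1) := by
  have h1 : ((cube d γ).filter fun x => ∀ i, j ≤ i → x i = x j).card
      = (Fintype.piFinset fun _ : Fin ((j : ℕ) + 1) => γ).card := by
    refine card_bij' (fun x _ => fun i => x ⟨i, by omega⟩)
      (fun y _ => fun i => y ⟨min (i : ℕ) j, by omega⟩) ?_ ?_ ?_ ?_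
    · intro x hx
      simp only [cube, mem_filter, Fintype.mem_piFinset] at hx ⊢
      exact fun i => hx.1 _
    · intro y hy
      simp only [cube, mem_filter, Fintype.mem_piFinset] at hy ⊢
      refine ⟨fun i => hy _, fun i hi => ?_⟩
      congr 1
      ext
      simp only
      rw [Fin.le_def] at hi
      omega
    · intro x hx
      simp only [cube, mem_filter, Fintype.mem_piFinset] at hx
      funext i
      simp only
      rcases le_total (i : ℕ) j with h | h
      · congr 1
        ext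
        simp only
        omega
      · rw [hx.2 i h]
        congr 1
        ext
        simp only
        omega
    · intro y hy
      funext i
      simp only
      congr 1
      ext
      simp only
      omega
  rw [stat, h1, Fintype.card_piFinset]
  simp

lemma stat_nonneg {N d : ℕ} (A : Finset (Fin d → Fin N)) (j : Fin d) : 0 ≤ stat A j := by
  simp [stat]

lemma stat_le {N d : ℕ} (A : Finset (Fin d → Fin N)) (j : Fin d) : stat A j ≤ (N ^ d : ℕ) := by
  rw [stat]
  have h1 := card_le_univ (A.filter fun x => ∀ i, j ≤ i → x i = x j)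
  rw [Fintype.card_fun, Fintype.card_fin, Fintype.card_fin] at h1
  exact_mod_cast h1

/-- the box `t + [0, n)^d` -/
noncomputable def box {d : ℕ} (t : Fin d → ℤ) (n : ℕ) : Finset (Fin d → ℤ) :=
  Fintype.piFinset fun j => Ico (t j) (t j + n)

open scoped Classical in
/-- a finite set of points without two points at distance `(ℓ, ℓ², ..., ℓ^d)` gives a family -/
theorem sizes_fin {d : ℕ} (L : Set ℕ) (X : Finset (Fin d → ℤ)) (n : ℕ) (hX : X ⊆ box 0 n)
    (hL : ∀ l ∈ L, 1 ≤ l → ∀ x ∈ X, (fun j : Fin d => x j + (l : ℤ) ^ ((j : ℕ) + 1)) ∉ X) (N : ℕ) :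
    ∃ S : Finset (Finset (Fin d → Fin N)),
      2 ^ N ^ d * X.card ≤ (n + N ^ d) ^ d * S.card ∧
      ∀ A ∈ S, ∀ γ : Finset (Fin N), γ.Nonempty → γ.card ∈ L → Disjoint A (cube d γ) →
        A ∪ cube d γ ∉ S := by
  let F : (Fin d → ℤ) → Finset (Finset (Fin d → Fin N)) := fun s =>
    univ.filter fun A => (fun j => stat A j + s j) ∈ X
  have hF : ∀ s, ∀ A ∈ F s, ∀ γ : Finset (Fin N), γ.Nonempty → γ.card ∈ L → Disjoint A (cube d γ) →
      A ∪ cube d γ ∉ F s := by
    intro s A hA γ hγ0 hγ hdis hAγ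
    simp only [F, mem_filter, mem_univ, true_and] at hA hAγ
    have h1 : (fun j => stat (A ∪ cube d γ) j + s j)
        = (fun j => (fun j => stat A j + s j) j + (γ.card : ℤ) ^ ((j : ℕ) + 1)) := by
      funext j
      simp only
      rw [stat_union hdis, stat_cube]
      ring
    rw [h1] at hAγ
    exact hL _ hγ (card_pos.2 hγ0) _ hA hAγ
  -- the maximum
  obtain ⟨s₀, hs₀⟩ : ∃ s₀, ∀ s, (F s).card ≤ (F s₀).card := by
    have hbd : BddAbove (Set.range fun s => (F s).card) := by
      refine ⟨Fintype.card (Finset (Fin d → Fin N)), ?_⟩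
      rintro _ ⟨s, rfl⟩
      exact card_le_univ _
    obtain ⟨s₀, hs₀⟩ := Nat.sSup_mem (Set.range_nonempty _) hbd
    refine ⟨s₀, fun s => ?_⟩
    have h1 := le_csSup hbd ⟨s, rfl⟩
    rw [← hs₀] at h1
    exact h1
  refine ⟨F s₀, ?_, hF s₀⟩
  set M : ℕ := N ^ d with hM
  let Q : Finset (Fin d → ℤ) := box (fun _ => - (M : ℤ)) (n + M)
  have h1 : ∀ A : Finset (Fin d → Fin N), X.card
      ≤ (Q.filter fun s => (fun j => stat A j + s j) ∈ X).card := by
    intro A
    refine card_le_card_of_injOn (fun x => fun j => x j - stat A j) ?_ ?_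
    · intro x hx
      have h0 := hX hx
      simp only [coe_filter, Set.mem_ofPred_eq, Q, box, Fintype.mem_piFinset, mem_Ico,
        Pi.zero_apply] at h0 ⊢
      refine ⟨fun j => ?_, ?_⟩
      · have h2 := h0 j
        have h3 := stat_nonneg A j
        have h4 := stat_le A j
        push_cast
        rw [← hM] at h4
        constructor <;> omega
      · have h5 : (fun j => stat A j + (x j - stat A j)) = x := by
          funext j
          ring
        rw [h5]
        exact hx
    · intro x _ y _ hxy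
      funext j
      have := congrFun hxy j
      simp only at this
      omega
  have h2 : ∑ s ∈ Q, (F s).card = ∑ A : Finset (Fin d → Fin N),
      (Q.filter fun s => (fun j => stat A j + s j) ∈ X).card := by
    simp only [F, card_filter]
    rw [sum_comm]
  calc 2 ^ M * X.card
      = ∑ _A : Finset (Fin d → Fin N), X.card := by
        rw [sum_const, card_univ, Fintype.card_finset, Fintype.card_fun, Fintype.card_fin,
          Fintype.card_fin, smul_eq_mul]
    _ ≤ ∑ s ∈ Q, (F s).card := by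
        rw [h2]
        exact sum_le_sum fun A _ => h1 A
    _ ≤ ∑ _s ∈ Q, (F s₀).card := sum_le_sum fun s _ => hs₀ s
    _ = (n + M) ^ d * (F s₀).card := by
        rw [sum_const, smul_eq_mul]
        congr 1
        simp only [Q, box]
        rw [Fintype.card_piFinset]
        have h8 : ((n : ℤ) + M).toNat = n + M := by omega
        simp [h8]

/-- recurrence along `(ℓ, ℓ², ..., ℓ^d)` is necessary -/
theorem sizes_necessary {d : ℕ} (L : Set ℕ)
    (hQ : ∀ δ : ℝ, 0 < δ → ∃ N₀ : ℕ, ∀ N : ℕ, N₀ ≤ N → ∀ S : Finset (Finset (Fin d → Fin N)),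
      δ * (2 : ℝ) ^ (N ^ d) ≤ S.card → ∃ A ∈ S, ∃ γ : Finset (Fin N), γ.Nonempty ∧ γ.card ∈ L ∧
        Disjoint A (cube d γ) ∧ A ∪ cube d γ ∈ S) (δ : ℝ) (hδ : 0 < δ) :
    ∃ n₀ : ℕ, ∀ n : ℕ, n₀ ≤ n → ∀ X : Finset (Fin d → ℕ), (∀ x ∈ X, ∀ j, x j < n) →
      δ * (n : ℝ) ^ d ≤ X.card → ∃ x ∈ X, ∃ l ∈ L, 1 ≤ l ∧
        (fun j : Fin d => x j + l ^ ((j : ℕ) + 1)) ∈ X := by
  classical
  obtain ⟨N, hN⟩ := hQ (δ / 2) (by linarith)
  set M : ℕ := N ^ d with hM
  have hlim : Tendsto (fun n : ℕ => (1 + (M : ℝ) / n) ^ d) atTop (𝓝 1) := by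
    have h1 : Tendsto (fun n : ℕ => (M : ℝ) / n) atTop (𝓝 0) :=
      tendsto_const_div_atTop_nhds_zero_nat _
    have h2 := (h1.const_add 1).pow d
    simpa using h2
  obtain ⟨n₀, hn₀⟩ := eventually_atTop.1
    ((hlim.eventually (gt_mem_nhds (show (1 : ℝ) < 2 by norm_num))).and (eventually_gt_atTop 0))
  refine ⟨n₀, fun n hn X hX hXc => ?_⟩
  obtain ⟨h1, hn0⟩ := hn₀ n hn
  have hn' : (0 : ℝ) < n := by exact_mod_cast hn0
  by_contra hcon
  push Not at hcon
  let Y : Finset (Fin d → ℤ) := X.image fun x => fun j => (x j : ℤ)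
  have hinj : Function.Injective fun x : Fin d → ℕ => fun j => (x j : ℤ) := by
    intro x y hxy
    funext j
    have := congrFun hxy j
    simp only at this
    exact_mod_cast this
  have hYc : Y.card = X.card := card_image_of_injective _ hinj
  obtain ⟨S, hS, hno⟩ := sizes_fin (N := N) L Y n (by
      intro y hy
      obtain ⟨x, hx, rfl⟩ := mem_image.1 hy
      simp only [box, Fintype.mem_piFinset, mem_Ico, Pi.zero_apply]
      intro j
      have := hX x hx j
      omega) (by
      intro l hl hl1 y hy hy'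
      obtain ⟨x, hx, rfl⟩ := mem_image.1 hy
      obtain ⟨z, hz, hzx⟩ := mem_image.1 hy'
      refine hcon x hx l hl hl1 ?_
      have h3 : z = fun j : Fin d => x j + l ^ ((j : ℕ) + 1) := by
        funext j
        have := congrFun hzx j
        simp only at this
        exact_mod_cast this
      rw [← h3]
      exact hz)
  rw [hYc, ← hM] at hS
  have hS' : (2 : ℝ) ^ M * X.card ≤ ((n : ℝ) + M) ^ d * S.card := by exact_mod_cast hS
  have h2 : ((n : ℝ) + M) ^ d < 2 * (n : ℝ) ^ d := by
    have h3 : (1 + (M : ℝ) / n) = ((n : ℝ) + M) / n := by field_simp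
    rw [h3, div_pow, div_lt_iff₀ (by positivity)] at h1
    exact h1
  have h4 : δ / 2 * (2 : ℝ) ^ (N ^ d) ≤ S.card := by
    rw [← hM]
    have h5 : (0 : ℝ) < (2 : ℝ) ^ M := by positivity
    have h6 : (2 : ℝ) ^ M * (δ * (n : ℝ) ^ d) ≤ 2 * (n : ℝ) ^ d * S.card := by
      calc (2 : ℝ) ^ M * (δ * (n : ℝ) ^ d) ≤ (2 : ℝ) ^ M * X.card :=
            mul_le_mul_of_nonneg_left hXc h5.le
        _ ≤ ((n : ℝ) + M) ^ d * S.card := hS'
        _ ≤ 2 * (n : ℝ) ^ d * S.card := mul_le_mul_of_nonneg_right h2.le (Nat.cast_nonneg _)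
    have h7 : (0 : ℝ) < (n : ℝ) ^ d := by positivity
    have h8 : (n : ℝ) ^ d * (δ * 2 ^ M) ≤ (n : ℝ) ^ d * (2 * S.card) := by linarith
    have h9 := le_of_mul_le_mul_left h8 h7
    linarith
  obtain ⟨A, hA, γ, hγ, hγL, hdis, hAγ⟩ := hN N le_rfl S h4
  exact hno A hA γ hγ hγL hdis hAγ

end Pool.Agent.K4H98.Which
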